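import Pool.Agent.ANO3.Deg.Basic

/-!
# ANO3, module Deg: linear isomorphisms (package DEG-LIN)

`deg_linear`: `L` is `C¹`, its only zero is `0`, `cnt L N = jacobianSign L 0 = sign (det L)`.
`deg_comp_left`: `g` good for `f` implies `L ∘ g` good for `L ∘ f` (`L (g x + t • (f x - g x))`),
the zeros
are the same, the sign is multiplied by `sign (det L)`.
`deg_comp_right`: coordinates: if `g` is good for `f` on `N` then `g ∘ L` is good for `f ∘ L` on
`L ⁻¹' N` (`L` is a homeomorphism: frontier, compactness), the zeros correspond under `L`.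
-/

set_option autoImplicit false

open Set Filter Topology
open Pool.Agent.SmoothDegree Pool.Agent.ANO.Idx

namespace Pool.Agent.ANO3.Deg

variable {E : Type*} [NormedAddCommGroup E] [NormedSpace ℝ E] [FiniteDimensional ℝ E] [Nontrivial E]

omit [Nontrivial E] in
private theorem det_Lin (L : E ≃L[ℝ] E) : (L : E →L[ℝ] E).det ≠ 0 :=
  det_ne_zero_of_inj _ fun v hv => by
    have h : L v = 0 := hv
    exact (L.map_eq_zero_iff).1 h

private theorem cnt_left_Lin (L : E ≃L[ℝ] E) {g : E → E} {N : Set E}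
    (hf : (N ∩ g ⁻¹' {0}).Finite) :
    cnt (L ∘ g) N = (SignType.sign (L : E →L[ℝ] E).det : ℤ) * cnt g N := by
  have hs : N ∩ (L ∘ g) ⁻¹' {0} = N ∩ g ⁻¹' {0} := by
    ext x
    simp only [mem_inter_iff, mem_preimage, mem_singleton_iff, Function.comp_apply,
      L.map_eq_zero_iff]
  unfold cnt
  rw [hs, finsum_mem_eq_finite_toFinset_sum _ hf, finsum_mem_eq_finite_toFinset_sum _ hf,
    Finset.mul_sum]
  refine Finset.sum_congr rfl fun x _ => ?_
  unfold jacobianSign
  rw [ContinuousLinearEquiv.comp_fderiv, det_comp, sign_mul, SignType.coe_mul]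

private theorem cnt_right_Lin (L : E ≃L[ℝ] E) {g : E → E} {N : Set E}
    (hf : (N ∩ g ⁻¹' {0}).Finite) :
    cnt (g ∘ L) (L ⁻¹' N) = (SignType.sign (L : E →L[ℝ] E).det : ℤ) * cnt g N := by
  have hs : L ⁻¹' N ∩ (g ∘ L) ⁻¹' {0} = L ⁻¹' (N ∩ g ⁻¹' {0}) := rfl
  have hi : N ∩ g ⁻¹' {0} = L '' (L ⁻¹' (N ∩ g ⁻¹' {0})) :=
    (image_preimage_eq _ L.surjective).symm
  have h2 : (L ⁻¹' (N ∩ g ⁻¹' {0})).Finite := hf.preimage L.injective.injOn
  unfold cnt
  rw [hs, hi, finsum_mem_image L.injective.injOn, ← hi,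
    finsum_mem_eq_finite_toFinset_sum _ h2, finsum_mem_eq_finite_toFinset_sum _ h2,
    Finset.mul_sum]
  refine Finset.sum_congr rfl fun x _ => ?_
  unfold jacobianSign
  rw [ContinuousLinearEquiv.comp_right_fderiv, det_comp, sign_mul, SignType.coe_mul, mul_comm]

theorem deg_linear (L : E ≃L[ℝ] E) {N : Set E} (hN : IsCompact N) (h0 : (0 : E) ∈ interior N) :
    deg L N = (SignType.sign (L : E →L[ℝ] E).det : ℤ) := by
  have hd := det_Lin L
  have hz : ∀ x : E, L x = 0 → x = 0 := fun x hx => L.map_eq_zero_iff.1 hx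
  have h1 : deg L N = cnt L N := by
    refine deg_of_reg hN isOpen_univ (subset_univ _) L.contDiff.contDiffOn ?_ ?_
    · intro x _ _
      rw [L.fderiv]
      exact hd
    · intro x hx h
      rw [hz x h] at hx
      exact hx.2 h0
  have hs : N ∩ L ⁻¹' {0} = {0} := by
    ext x
    simp only [mem_inter_iff, mem_preimage, mem_singleton_iff, L.map_eq_zero_iff]
    constructor
    · exact fun h => h.2
    · rintro rfl
      exact ⟨interior_subset h0, rfl⟩
  rw [h1]
  unfold cnt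
  rw [hs, finsum_mem_singleton]
  unfold jacobianSign
  rw [L.fderiv]

theorem deg_comp_left (L : E ≃L[ℝ] E) {f : E → E} {N : Set E} (A : Adm f N) :
    Adm (L ∘ f) N ∧ deg (L ∘ f) N = (SignType.sign (L : E →L[ℝ] E).det : ℤ) * deg f N := by
  obtain ⟨g, hg, -, -⟩ := exists_good A one_pos
  obtain ⟨V, hV, hNV, hf⟩ := A.cont
  have A' : Adm (L ∘ f) N := by
    refine ⟨A.compact, ⟨V, hV, hNV, L.continuous.comp_continuousOn hf⟩, ?_⟩
    intro x hx h
    exact A.ne x hx (L.map_eq_zero_iff.1 h)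
  obtain ⟨W, hW, hNW, hgs⟩ := hg.smooth
  have hg' : Good (L ∘ f) N (L ∘ g) := by
    refine ⟨⟨W, hW, hNW, L.contDiff.comp_contDiffOn hgs⟩, ?_, ?_⟩
    · intro x hx h
      rw [ContinuousLinearEquiv.comp_fderiv, det_comp]
      exact mul_ne_zero (det_Lin L) (hg.reg x hx (L.map_eq_zero_iff.1 h))
    · intro x hx t ht h
      refine hg.hom x hx t ht (L.map_eq_zero_iff.1 ?_)
      rw [← h, map_add, map_smul, map_sub]
      rfl
  refine ⟨A', ?_⟩
  rw [deg_eq_cnt A' hg', deg_eq_cnt A hg]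
  exact cnt_left_Lin L (finite_zeros A.compact hW hNW hgs hg.reg)

theorem deg_comp_right (L : E ≃L[ℝ] E) {f : E → E} {N : Set E} (A : Adm f N) :
    Adm (f ∘ L) (L ⁻¹' N) ∧
      deg (f ∘ L) (L ⁻¹' N) = (SignType.sign (L : E →L[ℝ] E).det : ℤ) * deg f N := by
  obtain ⟨g, hg, -, -⟩ := exists_good A one_pos
  obtain ⟨V, hV, hNV, hf⟩ := A.cont
  have hfr : frontier (L ⁻¹' N) = L ⁻¹' frontier N := (L.toHomeomorph.preimage_frontier N).symm
  have A' : Adm (f ∘ L) (L ⁻¹' N) := by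
    refine ⟨(L.toHomeomorph.isCompact_preimage (s := N)).2 A.compact,
      ⟨L ⁻¹' V, hV.preimage L.continuous, preimage_mono hNV, ?_⟩, ?_⟩
    · exact hf.comp L.continuous.continuousOn fun x hx => hx
    · intro x hx h
      rw [hfr] at hx
      exact A.ne _ hx h
  obtain ⟨W, hW, hNW, hgs⟩ := hg.smooth
  have hg' : Good (f ∘ L) (L ⁻¹' N) (g ∘ L) := by
    refine ⟨⟨L ⁻¹' W, hW.preimage L.continuous, preimage_mono hNW, ?_⟩, ?_, ?_⟩
    · exact hgs.comp L.contDiff.contDiffOn fun x hx => hx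
    · intro x hx h
      rw [ContinuousLinearEquiv.comp_right_fderiv, det_comp]
      exact mul_ne_zero (hg.reg _ hx h) (det_Lin L)
    · intro x hx t ht
      rw [hfr] at hx
      exact hg.hom _ hx t ht
  refine ⟨A', ?_⟩
  rw [deg_eq_cnt A' hg', deg_eq_cnt A hg]
  exact cnt_right_Lin L (finite_zeros A.compact hW hNW hgs hg.reg)

theorem natAbs_sign_det (L : E ≃L[ℝ] E) :
    (SignType.sign (L : E →L[ℝ] E).det : ℤ).natAbs = 1 := by
  rcases lt_or_gt_of_ne (det_Lin L) with h | h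
  · rw [sign_neg h]
    rfl
  · rw [sign_pos h]
    rfl

end Pool.Agent.ANO3.Deg
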