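import Pool.Agent.ANO3.Deg.Basic
import Mathlib.LinearAlgebra.Determinant

/-!
# ANO3, module Deg: products (package DEG-PROD)

Take `g₁`, `g₂` good and close to `f₁`, `f₂` (`exists_good`), closer than the minima of `|f₁|`,
`|f₂|` on
the frontiers. `g = Prod.map g₁ g₂` is `C¹`, its zeros in `N₁ ×ˢ N₂` are the pairs, the derivative
at
`(x₁, x₂)` is `(D g₁ x₁).prodMap (D g₂ x₂)`, with determinant the product of the determinants
(`LinearMap.det_prodMap`), so `jacobianSign` is the product and `cnt g (N₁ ×ˢ N₂) = cnt g₁ N₁ * cnt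
g₂ N₂`
(`finsum_mem` over a product of finite sets: `Finset.sum_product`, `Finset.sum_mul_sum`).
`g` is good for `Prod.map f₁ f₂`: `frontier (N₁ ×ˢ N₂) ⊆ (frontier N₁ ×ˢ N₂) ∪ (N₁ ×ˢ frontier N₂)`
(`frontier_prod_eq`), and there one of the components of the homotopy is nonzero.
-/

set_option autoImplicit false

open Set Filter Topology
open Pool.Agent.SmoothDegree Pool.Agent.ANO.Idx

namespace Pool.Agent.ANO3.Deg

variable {E₁ E₂ : Type*} [NormedAddCommGroup E₁] [NormedSpace ℝ E₁] [FiniteDimensional ℝ E₁]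
  [Nontrivial E₁] [NormedAddCommGroup E₂] [NormedSpace ℝ E₂] [FiniteDimensional ℝ E₂]
  [Nontrivial E₂]

private theorem ne_front_Prod {X₁ X₂ : Type*} [TopologicalSpace X₁] [TopologicalSpace X₂]
    {N₁ : Set X₁} {N₂ : Set X₂} {x : X₁ × X₂} (hx : x ∈ frontier (N₁ ×ˢ N₂)) :
    x.2 ∈ frontier N₂ ∨ x.1 ∈ frontier N₁ := by
  rw [frontier_prod_eq] at hx
  rcases hx with h | h
  · exact Or.inl h.2
  · exact Or.inr h.1

theorem adm_prod {f₁ : E₁ → E₁} {f₂ : E₂ → E₂} {N₁ : Set E₁} {N₂ : Set E₂} (A₁ : Adm f₁ N₁)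
    (A₂ : Adm f₂ N₂) : Adm (Prod.map f₁ f₂) (N₁ ×ˢ N₂) := by
  obtain ⟨V₁, hV₁, hN₁, hf₁⟩ := A₁.cont
  obtain ⟨V₂, hV₂, hN₂, hf₂⟩ := A₂.cont
  refine ⟨A₁.compact.prod A₂.compact, ⟨V₁ ×ˢ V₂, hV₁.prod hV₂, prod_mono hN₁ hN₂,
    hf₁.prodMap hf₂⟩, fun x hx h0 => ?_⟩
  rcases ne_front_Prod hx with h | h
  · exact A₂.ne x.2 h (congrArg Prod.snd h0)
  · exact A₁.ne x.1 h (congrArg Prod.fst h0)

private theorem sign_prod_Prod {g₁ : E₁ → E₁} {g₂ : E₂ → E₂} {x : E₁ × E₂}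
    (h₁ : DifferentiableAt ℝ g₁ x.1) (h₂ : DifferentiableAt ℝ g₂ x.2) :
    (fderiv ℝ (Prod.map g₁ g₂) x).det = (fderiv ℝ g₁ x.1).det * (fderiv ℝ g₂ x.2).det ∧
      jacobianSign (Prod.map g₁ g₂) x = jacobianSign g₁ x.1 * jacobianSign g₂ x.2 := by
  have h3 : fderiv ℝ (Prod.map g₁ g₂) x = (fderiv ℝ g₁ x.1).prodMap (fderiv ℝ g₂ x.2) :=
    (h₁.hasFDerivAt.prodMap x h₂.hasFDerivAt).fderiv
  have h4 : (fderiv ℝ (Prod.map g₁ g₂) x).det =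
      (fderiv ℝ g₁ x.1).det * (fderiv ℝ g₂ x.2).det := by
    rw [h3]
    exact LinearMap.det_prodMap _ _
  refine ⟨h4, ?_⟩
  unfold jacobianSign
  rw [h4, sign_mul]
  exact SignType.coe_mul _ _

theorem deg_prod {f₁ : E₁ → E₁} {f₂ : E₂ → E₂} {N₁ : Set E₁} {N₂ : Set E₂} (A₁ : Adm f₁ N₁)
    (A₂ : Adm f₂ N₂) : deg (Prod.map f₁ f₂) (N₁ ×ˢ N₂) = deg f₁ N₁ * deg f₂ N₂ := by
  classical
  obtain ⟨g₁, G₁, hg₁, -⟩ := exists_good A₁ one_pos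
  obtain ⟨g₂, G₂, hg₂, -⟩ := exists_good A₂ one_pos
  have hd₁ : ∀ x, DifferentiableAt ℝ g₁ x := fun x =>
    hg₁.contDiffAt.differentiableAt one_ne_zero
  have hd₂ : ∀ x, DifferentiableAt ℝ g₂ x := fun x =>
    hg₂.contDiffAt.differentiableAt one_ne_zero
  have hG : Good (Prod.map f₁ f₂) (N₁ ×ˢ N₂) (Prod.map g₁ g₂) := by
    refine ⟨⟨univ, isOpen_univ, subset_univ _, (hg₁.prodMap hg₂).contDiffOn⟩, ?_, ?_⟩
    · intro x hx h0
      rw [(sign_prod_Prod (hd₁ x.1) (hd₂ x.2)).1]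
      exact mul_ne_zero (G₁.reg x.1 hx.1 (congrArg Prod.fst h0))
        (G₂.reg x.2 hx.2 (congrArg Prod.snd h0))
    · intro x hx t ht h0
      rcases ne_front_Prod hx with h | h
      · exact G₂.hom x.2 h t ht (congrArg Prod.snd h0)
      · exact G₁.hom x.1 h t ht (congrArg Prod.fst h0)
  rw [deg_eq_cnt (adm_prod A₁ A₂) hG, deg_eq_cnt A₁ G₁, deg_eq_cnt A₂ G₂]
  have hf₁ : (N₁ ∩ g₁ ⁻¹' {0}).Finite :=
    finite_zeros A₁.compact isOpen_univ (subset_univ _) hg₁.contDiffOn G₁.reg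
  have hf₂ : (N₂ ∩ g₂ ⁻¹' {0}).Finite :=
    finite_zeros A₂.compact isOpen_univ (subset_univ _) hg₂.contDiffOn G₂.reg
  have hset : (N₁ ×ˢ N₂) ∩ (Prod.map g₁ g₂) ⁻¹' {0} =
      ((hf₁.toFinset ×ˢ hf₂.toFinset : Finset (E₁ × E₂)) : Set (E₁ × E₂)) := by
    ext x
    rw [Finset.coe_product, hf₁.coe_toFinset, hf₂.coe_toFinset]
    constructor
    · rintro ⟨hx, h0⟩
      exact ⟨⟨hx.1, congrArg Prod.fst h0⟩, ⟨hx.2, congrArg Prod.snd h0⟩⟩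
    · rintro ⟨⟨hx, h0⟩, ⟨hx', h0'⟩⟩
      exact ⟨⟨hx, hx'⟩, Prod.ext h0 h0'⟩
  unfold cnt
  rw [hset, finsum_mem_coe_finset, finsum_mem_eq_finite_toFinset_sum _ hf₁,
    finsum_mem_eq_finite_toFinset_sum _ hf₂, Finset.sum_mul_sum, Finset.sum_product]
  refine Finset.sum_congr rfl fun x _ => Finset.sum_congr rfl fun y _ => ?_
  exact (sign_prod_Prod (x := (x, y)) (hd₁ x) (hd₂ y)).2

end Pool.Agent.ANO3.Deg
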