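import Pool.Agent.ANO3.Deg.Defs

/-!
# ANO3, module Deg: existence and uniqueness (package DEG-EXIST)

`exists_good`: let `m = min (1, min over frontier N of |f|) > 0` (the frontier is compact, `f` is
continuous there). `ANO.Idx.exists_approx` gives `g' : E → E`, `ContDiff ℝ 1 g'`, with
`|g' - f| < m / 2` on `N`. By Sard (`SmoothDegree.frequently_isRegularValue`) there is a regular
value
`y` of `g'` with `|y| < m / 2`; put `g = g' - y` (see the proof of `ANO.Idx.cnt_eq`: `g₁`, `g₂`). On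
the frontier `g x + t • (f x - g x) = f x - (1 - t) • (f x - g x)` and `‖f x - g x‖ < m ≤ ‖f x‖`.

`cnt_eq_of_good`: let `g` and `g'` be good. Use `ANO.Idx.cnt_eq` with `U = N`: it needs
`N ⊆ interior U`. So first shrink: the zeros of `g`, of `g'` in `N` (finite, compact sets) do not
lie on
the frontier (`hom` with `t = 0`), and the set `{x ∈ N | f x = 0}` is a compact subset of
`interior N`. Choose a compact `N'` with `{f = 0} ∩ N ⊆ interior N'`, `N' ⊆ interior N`, which
contains the zeros of `g` and of `g'` in its interior (`exists_compact_between`). Now take `g₃`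
good for
`f` on `N'` from `exists_good` AND so close to `f` (smaller than half of the minimum of `|f|` on
`N \ interior N'`). `cnt_eq` (`U = N`, `h = g`, middle map `f`, `N = N'`, `k = g₃`) gives
`cnt g N = cnt g₃ N'`; the same for `g'`. (The hypothesis `h1` of `cnt_eq` is `hom`, `h2` holds
by the choice of `N'`, `h3` is `hom` of `g₃` on the frontier of `N'`, with `t` replaced by `1 - t`:
`f x + t • (g₃ x - f x)`.)
-/

set_option autoImplicit false
set_option linter.unusedSectionVars false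

open Set Filter Topology
open Pool.Agent.SmoothDegree Pool.Agent.ANO.Idx

namespace Pool.Agent.ANO3.Deg

variable {E : Type*} [NormedAddCommGroup E] [NormedSpace ℝ E] [FiniteDimensional ℝ E] [Nontrivial E]

private theorem lower_Exist {f : E → E} {N : Set E} (A : Adm f N) :
    ∃ m > 0, ∀ x ∈ frontier N, m ≤ ‖f x‖ := by
  obtain ⟨V, -, hNV, hf⟩ := A.cont
  have hsub : frontier N ⊆ N := A.compact.isClosed.frontier_subset
  have hK : IsCompact (frontier N) := A.compact.of_isClosed_subset isClosed_frontier hsub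
  rcases (frontier N).eq_empty_or_nonempty with h | h
  · exact ⟨1, one_pos, by simp [h]⟩
  · obtain ⟨x₀, hx₀, hmin⟩ := hK.exists_isMinOn h ((hf.mono (hsub.trans hNV)).norm)
    exact ⟨‖f x₀‖, norm_pos_iff.2 (A.ne x₀ hx₀), fun x hx => hmin hx⟩

/-- good approximations exist, arbitrarily close to `f` -/
theorem exists_good {f : E → E} {N : Set E} (A : Adm f N) {ε : ℝ} (hε : 0 < ε) :
    ∃ g, Good f N g ∧ ContDiff ℝ 1 g ∧ ∀ x ∈ N, ‖g x - f x‖ < ε := by
  obtain ⟨m, hm, hfm⟩ := lower_Exist A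
  obtain ⟨V, hV, hNV, hf⟩ := A.cont
  have hsub : frontier N ⊆ N := A.compact.isClosed.frontier_subset
  obtain ⟨δ, hδ, hδ1, hδ2⟩ : ∃ δ : ℝ, 0 < δ ∧ 2 * δ < m ∧ 2 * δ < ε := by
    refine ⟨min m ε / 3, by positivity, ?_, ?_⟩
    · have : min m ε ≤ m := min_le_left _ _
      linarith
    · have : min m ε ≤ ε := min_le_right _ _
      linarith
  obtain ⟨g₁, hg₁, hga⟩ := exists_approx hV hf A.compact hNV hδ
  obtain ⟨y, hy, hyδ⟩ := ((frequently_isRegularValue hg₁ 0).and_eventually
    (Metric.ball_mem_nhds (0 : E) hδ)).exists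
  have hyn : ‖y‖ < δ := by simpa using hyδ
  obtain ⟨g₂, hg₂⟩ : ∃ g₂ : E → E, g₂ = fun x => g₁ x - y := ⟨_, rfl⟩
  have hg₂c : ContDiff ℝ 1 g₂ := by
    rw [hg₂]
    exact hg₁.sub contDiff_const
  have hg₂r : ∀ x, g₂ x = 0 → (fderiv ℝ g₂ x).det ≠ 0 := by
    intro x hx
    rw [hg₂] at hx ⊢
    rw [fderiv_sub_const']
    exact hy x (sub_eq_zero.1 hx)
  have hd : ∀ x ∈ N, ‖g₂ x - f x‖ < 2 * δ := by
    intro x hx
    have e : g₂ x - f x = (g₁ x - f x) - y := by
      rw [hg₂]
      exact sub_right_comm _ _ _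
    rw [e]
    calc ‖(g₁ x - f x) - y‖ ≤ ‖g₁ x - f x‖ + ‖y‖ := norm_sub_le _ _
      _ < δ + δ := add_lt_add (hga x hx) hyn
      _ = 2 * δ := by ring
  refine ⟨g₂, ⟨⟨univ, isOpen_univ, subset_univ _, hg₂c.contDiffOn⟩, fun x _ => hg₂r x, ?_⟩,
    hg₂c, fun x hx => (hd x hx).trans hδ2⟩
  intro x hx t ht h0
  have e1 := hfm x hx
  have e2 := hd x (hsub hx)
  have e3 : f x = -((1 - t) • (g₂ x - f x)) := by
    have : f x + (1 - t) • (g₂ x - f x) = g₂ x + t • (f x - g₂ x) := by
      module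
    rw [h0] at this
    exact eq_neg_of_add_eq_zero_left this
  have ht' : 0 ≤ 1 - t := by linarith [ht.2]
  rw [e3, norm_neg, norm_smul, Real.norm_eq_abs, abs_of_nonneg ht'] at e1
  have e4 : (1 - t) * ‖g₂ x - f x‖ ≤ 1 * ‖g₂ x - f x‖ :=
    mul_le_mul_of_nonneg_right (by linarith [ht.1]) (norm_nonneg _)
  linarith

theorem cnt_eq_of_good {f : E → E} {N : Set E} (A : Adm f N) {g g' : E → E} (hg : Good f N g)
    (hg' : Good f N g') : cnt g N = cnt g' N := by
  obtain ⟨V, hV, hNV, hf⟩ := A.cont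
  have hK : IsCompact (N ∩ f ⁻¹' {0}) :=
    A.compact.of_isClosed_subset
      ((hf.mono hNV).preimage_isClosed_of_isClosed A.compact.isClosed isClosed_singleton)
      inter_subset_left
  have hKi : N ∩ f ⁻¹' {0} ⊆ interior N := by
    rintro x ⟨hx, h0⟩
    by_contra hi
    exact A.ne x ⟨subset_closure hx, hi⟩ h0
  obtain ⟨N', hN', hKN', hN'N⟩ := exists_compact_between hK isOpen_interior hKi
  have hsub : N' ⊆ N := hN'N.trans interior_subset
  have A' : Adm f N' := by
    refine ⟨hN', ⟨V, hV, hsub.trans hNV, hf⟩, ?_⟩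
    intro x hx h0
    exact hx.2 (hKN' ⟨hsub (hN'.isClosed.frontier_subset hx), h0⟩)
  obtain ⟨g₃, hg₃, hg₃c, -⟩ := exists_good A' one_pos
  have key : ∀ h : E → E, Good f N h → cnt h N = cnt g₃ N' := by
    intro h hh
    obtain ⟨V₁, hV₁, hNV₁, hs⟩ := hh.smooth
    refine cnt_eq (V := V ∩ V₁) (W := univ) (g := f) A.compact (hV.inter hV₁)
      (subset_inter hNV hNV₁) (hs.mono inter_subset_right) hh.reg (hf.mono inter_subset_left)
      hN' hN'N isOpen_univ (subset_univ _) hg₃c.contDiffOn hg₃.reg hh.hom ?_ ?_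
    · intro x hx hi h0
      exact hi (hKN' ⟨hx, h0⟩)
    · intro x hx t ht h0
      refine hg₃.hom x hx (1 - t) ⟨by linarith [ht.2], by linarith [ht.1]⟩ ?_
      rw [← h0]
      module
  rw [key g hg, key g' hg']

/-- the degree is the signed number of zeros of every good approximation -/
theorem deg_eq_cnt {f : E → E} {N : Set E} (A : Adm f N) {g : E → E} (hg : Good f N g) :
    deg f N = cnt g N := by
  have h : ∃ g, Good f N g := ⟨g, hg⟩
  rw [deg, dif_pos h]
  exact cnt_eq_of_good A h.choose_spec hg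

end Pool.Agent.ANO3.Deg
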