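import Pool.Agent.ANO3.Deg.Exist

/-!
# ANO3, module Deg: basic properties (package DEG-BASIC)

`deg_of_reg`: `f` itself is a good approximation (`f x + t • (f x - f x) = f x`).
`deg_congr`: if `f = f'` on a neighbourhood `V` of `N`, a good `g` for `f` is good for `f'` (the
frontier
of a closed set is contained in it).
`deg_homotopy`: first `deg_line`: if `f x + t • (f' x - f x) ≠ 0` on the frontier then the degrees
are
equal. For this take `g` good for `f`, close to `f` (closer than the minimum of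
`‖f x + t • (f' x - f x)‖` over the frontier and `t ∈ [0, 1]`): then it is good for `f'`:
`g + t (f' - g) = (f + t (f' - f)) + (1 - t) (g - f)`. For a general homotopy use the uniform
continuity
of `F` on the compact set `[0, 1] × frontier N`, with `m` the minimum of `‖F t x‖` there, and a
subdivision of `[0, 1]` such that `‖F t x - F t' x‖ < m` for consecutive `t`, `t'`; `deg_line` for
each step. (Or: the set of `t` with `deg (F t) N = deg (F 0) N` is open and closed in `[0, 1]`;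
`IsPreconnected`.)
`deg_excision`: take `g` close to `f` on `N` (closer than the minimum of `|f|` on `N \ interior N'`
and on
the frontier of `N`) and good for `f` on `N`: it is good on `N'` (the frontier of `N'` is contained
in
`N \ interior N'`), and it has no zero in `N \ N'`, so `cnt g N = cnt g N'`
(the sets `N ∩ g ⁻¹' {0}` and `N' ∩ g ⁻¹' {0}` are equal).
`deg_union`: `N₁`, `N₂` disjoint compact sets; take `g` good for `N₁ ∪ N₂` and close to `f`; it is
good for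
`N₁` and `N₂` (the frontier of `N₁` is contained in the frontier of `N₁ ∪ N₂` because `N₂` is at
positive distance); `cnt g (N₁ ∪ N₂) = cnt g N₁ + cnt g N₂` (`finsum_mem_union`, the sets of zeros
are finite by `ANO.Idx.finite_zeros`).
`deg_zero`: excision to `N' = ∅`, `cnt g ∅ = 0`.
-/

set_option autoImplicit false

open Set Filter Topology
open Pool.Agent.SmoothDegree Pool.Agent.ANO.Idx

namespace Pool.Agent.ANO3.Deg

variable {E : Type*} [NormedAddCommGroup E] [NormedSpace ℝ E] [FiniteDimensional ℝ E] [Nontrivial E]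

private theorem lower_Basic {X : Type*} [TopologicalSpace X] {K : Set X} (hK : IsCompact K)
    {G : X → E} (hG : ContinuousOn G K) (h0 : ∀ x ∈ K, G x ≠ 0) :
    ∃ m > 0, ∀ x ∈ K, m ≤ ‖G x‖ := by
  rcases K.eq_empty_or_nonempty with h | h
  · exact ⟨1, one_pos, by simp [h]⟩
  · obtain ⟨x₀, hx₀, hmin⟩ := hK.exists_isMinOn h hG.norm
    exact ⟨‖G x₀‖, norm_pos_iff.2 (h0 x₀ hx₀), fun x hx => hmin hx⟩

/-- if `u = v + (1 - t) • w` with `‖w‖ < m ≤ ‖v‖` then `u ≠ 0` -/
private theorem ne_Basic {u v w : E} {t m : ℝ} (ht : t ∈ Icc (0 : ℝ) 1)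
    (hu : u = v + (1 - t) • w) (hv : m ≤ ‖v‖) (hw : ‖w‖ < m) : u ≠ 0 := by
  intro h0
  rw [h0] at hu
  have e : v = -((1 - t) • w) := eq_neg_of_add_eq_zero_left hu.symm
  have ht' : 0 ≤ 1 - t := by linarith [ht.2]
  rw [e, norm_neg, norm_smul, Real.norm_eq_abs, abs_of_nonneg ht'] at hv
  have e4 : (1 - t) * ‖w‖ ≤ 1 * ‖w‖ :=
    mul_le_mul_of_nonneg_right (by linarith [ht.1]) (norm_nonneg _)
  linarith

theorem deg_of_reg {f : E → E} {N V : Set E} (hN : IsCompact N) (hV : IsOpen V) (hNV : N ⊆ V)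
    (hf : ContDiffOn ℝ 1 f V) (hr : Reg f N) (h0 : ∀ x ∈ frontier N, f x ≠ 0) :
    deg f N = cnt f N := by
  have A : Adm f N := ⟨hN, ⟨V, hV, hNV, hf.continuousOn⟩, h0⟩
  refine deg_eq_cnt A ⟨⟨V, hV, hNV, hf⟩, hr, fun x hx t _ => ?_⟩
  rw [sub_self, smul_zero, add_zero]
  exact h0 x hx

theorem deg_congr {f f' : E → E} {N V : Set E} (A : Adm f N) (hV : IsOpen V) (hNV : N ⊆ V)
    (h : EqOn f f' V) : deg f N = deg f' N := by
  obtain ⟨g, hg, -, -⟩ := exists_good A one_pos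
  obtain ⟨V', hV', hNV', hf⟩ := A.cont
  have hfr : frontier N ⊆ N := A.compact.isClosed.frontier_subset
  have A' : Adm f' N := by
    refine ⟨A.compact, ⟨V' ∩ V, hV'.inter hV, subset_inter hNV' hNV, ?_⟩, fun x hx => ?_⟩
    · exact (hf.mono inter_subset_left).congr fun x hx => (h hx.2).symm
    · rw [← h (hNV (hfr hx))]
      exact A.ne x hx
  have hg' : Good f' N g := by
    refine ⟨hg.smooth, hg.reg, fun x hx t ht => ?_⟩
    rw [← h (hNV (hfr hx))]
    exact hg.hom x hx t ht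
  rw [deg_eq_cnt A hg, deg_eq_cnt A' hg']

private theorem line_Basic {f f' : E → E} {N : Set E} (A : Adm f N) (A' : Adm f' N)
    (h : ∀ x ∈ frontier N, ∀ t ∈ Icc (0 : ℝ) 1, f x + t • (f' x - f x) ≠ 0) :
    deg f N = deg f' N := by
  obtain ⟨V, -, hNV, hf⟩ := A.cont
  obtain ⟨V', -, hNV', hf'⟩ := A'.cont
  have hfr : frontier N ⊆ N := A.compact.isClosed.frontier_subset
  have hK : IsCompact (frontier N) := A.compact.of_isClosed_subset isClosed_frontier hfr
  have hc : ContinuousOn (fun p : E × ℝ => f p.1 + p.2 • (f' p.1 - f p.1))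
      (frontier N ×ˢ Icc (0 : ℝ) 1) := by
    have h1 : ContinuousOn (fun p : E × ℝ => f p.1) (frontier N ×ˢ Icc (0 : ℝ) 1) :=
      (hf.mono (hfr.trans hNV)).comp continuousOn_fst fun p hp => hp.1
    have h2 : ContinuousOn (fun p : E × ℝ => f' p.1) (frontier N ×ˢ Icc (0 : ℝ) 1) :=
      (hf'.mono (hfr.trans hNV')).comp continuousOn_fst fun p hp => hp.1
    exact h1.add (continuousOn_snd.smul (h2.sub h1))
  obtain ⟨m, hm, hlow⟩ := lower_Basic (hK.prod isCompact_Icc) hc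
    fun p hp => h p.1 hp.1 p.2 hp.2
  obtain ⟨g, hg, -, hgf⟩ := exists_good A hm
  have hg' : Good f' N g := by
    refine ⟨hg.smooth, hg.reg, fun x hx t ht => ?_⟩
    refine ne_Basic (v := f x + t • (f' x - f x)) (w := g x - f x) ht ?_
      (hlow (x, t) ⟨hx, ht⟩) (hgf x (hfr hx))
    module
  rw [deg_eq_cnt A hg, deg_eq_cnt A' hg']

/-- homotopy invariance -/
theorem deg_homotopy {N V : Set E} (hN : IsCompact N) (hV : IsOpen V) (hNV : N ⊆ V)
    {F : ℝ → E → E} (hF : ContinuousOn (fun p : ℝ × E => F p.1 p.2) (Icc 0 1 ×ˢ V))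
    (h0 : ∀ t ∈ Icc (0 : ℝ) 1, ∀ x ∈ frontier N, F t x ≠ 0) : deg (F 0) N = deg (F 1) N := by
  have hfr : frontier N ⊆ N := hN.isClosed.frontier_subset
  have hK : IsCompact (frontier N) := hN.of_isClosed_subset isClosed_frontier hfr
  have hKK : IsCompact (Icc (0 : ℝ) 1 ×ˢ frontier N) := isCompact_Icc.prod hK
  have hsub : Icc (0 : ℝ) 1 ×ˢ frontier N ⊆ Icc 0 1 ×ˢ V :=
    prod_mono (subset_refl _) (hfr.trans hNV)
  have hc : ContinuousOn (fun p : ℝ × E => F p.1 p.2) (Icc (0 : ℝ) 1 ×ˢ frontier N) :=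
    hF.mono hsub
  obtain ⟨m, hm, hlow⟩ := lower_Basic hKK hc fun p hp => h0 p.1 hp.1 p.2 hp.2
  have hA : ∀ t ∈ Icc (0 : ℝ) 1, Adm (F t) N := by
    intro t ht
    refine ⟨hN, ⟨V, hV, hNV, ?_⟩, h0 t ht⟩
    exact hF.comp (f := fun x : E => (t, x)) (by fun_prop) fun x hx => ⟨ht, hx⟩
  obtain ⟨δ, hδ, hu⟩ := Metric.uniformContinuousOn_iff.1
    (hKK.uniformContinuousOn_of_continuous hc) m hm
  obtain ⟨n, hn⟩ := exists_nat_one_div_lt hδ
  have hn1 : (0 : ℝ) < n + 1 := by positivity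
  have hmem : ∀ k : ℕ, k ≤ n + 1 → (k : ℝ) / (n + 1) ∈ Icc (0 : ℝ) 1 := by
    intro k hk
    refine ⟨by positivity, ?_⟩
    rw [div_le_one hn1]
    exact_mod_cast hk
  have hstep : ∀ k : ℕ, k ≤ n + 1 → deg (F 0) N = deg (F ((k : ℝ) / (n + 1))) N := by
    intro k
    induction k with
    | zero =>
      intro _
      rw [Nat.cast_zero, zero_div]
    | succ k ih =>
      intro hk
      rw [ih (by omega)]
      have m1 := hmem k (by omega)
      have m2 := hmem (k + 1) hk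
      refine line_Basic (hA _ m1) (hA _ m2) fun x hx t ht => ?_
      have hd : dist ((((k + 1 : ℕ) : ℝ) / (n + 1), x) : ℝ × E) (((k : ℝ) / (n + 1), x)) < δ := by
        rw [Prod.dist_eq, dist_self, Real.dist_eq]
        have e : ((k + 1 : ℕ) : ℝ) / (n + 1) - (k : ℝ) / (n + 1) = 1 / (n + 1) := by
          push_cast
          ring
        rw [e, abs_of_pos (by positivity), max_eq_left (by positivity)]
        exact hn
      have h1 := hu _ ⟨m2, hx⟩ _ ⟨m1, hx⟩ hd
      rw [dist_eq_norm] at h1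
      refine ne_Basic (t := 1 - t) (v := F ((k : ℝ) / (n + 1)) x)
        (w := F (((k + 1 : ℕ) : ℝ) / (n + 1)) x - F ((k : ℝ) / (n + 1)) x)
        ⟨by linarith [ht.2], by linarith [ht.1]⟩ ?_ (hlow (_, x) ⟨m1, hx⟩) h1
      rw [sub_sub_cancel]
  have := hstep (n + 1) le_rfl
  rw [this]
  congr 2
  push_cast
  exact div_self hn1.ne'

/-- excision -/
theorem deg_excision {f : E → E} {N N' : Set E} (A : Adm f N) (hN' : IsCompact N') (hsub : N' ⊆ N)
    (h0 : ∀ x ∈ N, x ∉ interior N' → f x ≠ 0) : deg f N = deg f N' := by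
  obtain ⟨V, hV, hNV, hf⟩ := A.cont
  have hfr' : frontier N' ⊆ N \ interior N' := fun x hx =>
    ⟨hsub (hN'.isClosed.frontier_subset hx), hx.2⟩
  have A' : Adm f N' := ⟨hN', ⟨V, hV, hsub.trans hNV, hf⟩, fun x hx =>
    h0 x (hfr' hx).1 (hfr' hx).2⟩
  have hK : IsCompact (N \ interior N') := A.compact.diff isOpen_interior
  obtain ⟨m, hm, hlow⟩ := lower_Basic hK (hf.mono (diff_subset.trans hNV))
    fun x hx => h0 x hx.1 hx.2
  obtain ⟨g, hg, -, hgf⟩ := exists_good A hm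
  have hg' : Good f N' g := by
    obtain ⟨W, hW, hNW, hs⟩ := hg.smooth
    refine ⟨⟨W, hW, hsub.trans hNW, hs⟩, fun x hx => hg.reg x (hsub hx), fun x hx t ht => ?_⟩
    refine ne_Basic (v := f x) (w := g x - f x) ht ?_ (hlow x (hfr' hx)) (hgf x (hfr' hx).1)
    module
  rw [deg_eq_cnt A hg, deg_eq_cnt A' hg']
  have hs : N ∩ g ⁻¹' {0} = N' ∩ g ⁻¹' {0} := by
    ext x
    constructor
    · rintro ⟨hx, hgx⟩
      refine ⟨?_, hgx⟩
      by_contra hx'
      have h1 := hlow x ⟨hx, fun h => hx' (interior_subset h)⟩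
      have h2 := hgf x hx
      have h3 : g x = 0 := hgx
      rw [h3, zero_sub, norm_neg] at h2
      linarith
    · rintro ⟨hx, hgx⟩
      exact ⟨hsub hx, hgx⟩
  unfold cnt
  rw [hs]

private theorem frontier_Basic {X : Type*} [TopologicalSpace X] {A B : Set X} (hA : IsClosed A)
    (hB : IsClosed B) (hd : Disjoint A B) : frontier A ⊆ frontier (A ∪ B) := by
  intro x hx
  have hxA : x ∈ A := hA.frontier_subset hx
  refine ⟨subset_closure (Or.inl hxA), fun hi => hx.2 ?_⟩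
  rw [mem_interior] at hi ⊢
  obtain ⟨U, hU, hUo, hxU⟩ := hi
  refine ⟨U ∩ Bᶜ, ?_, hUo.inter hB.isOpen_compl, hxU, fun h => hd.ne_of_mem hxA h rfl⟩
  rintro y ⟨hy1, hy2⟩
  rcases hU hy1 with h | h
  · exact h
  · exact absurd h hy2

theorem deg_union {f : E → E} {N₁ N₂ : Set E} (A : Adm f (N₁ ∪ N₂)) (h₁ : IsCompact N₁)
    (h₂ : IsCompact N₂) (hd : Disjoint N₁ N₂) : deg f (N₁ ∪ N₂) = deg f N₁ + deg f N₂ := by
  have f1 : frontier N₁ ⊆ frontier (N₁ ∪ N₂) := frontier_Basic h₁.isClosed h₂.isClosed hd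
  have f2 : frontier N₂ ⊆ frontier (N₁ ∪ N₂) := by
    rw [union_comm]
    exact frontier_Basic h₂.isClosed h₁.isClosed hd.symm
  obtain ⟨V, hV, hNV, hf⟩ := A.cont
  have s1 : N₁ ⊆ N₁ ∪ N₂ := subset_union_left
  have s2 : N₂ ⊆ N₁ ∪ N₂ := subset_union_right
  have A1 : Adm f N₁ := ⟨h₁, ⟨V, hV, s1.trans hNV, hf⟩, fun x hx => A.ne x (f1 hx)⟩
  have A2 : Adm f N₂ := ⟨h₂, ⟨V, hV, s2.trans hNV, hf⟩, fun x hx => A.ne x (f2 hx)⟩
  obtain ⟨g, hg, -, -⟩ := exists_good A one_pos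
  obtain ⟨W, hW, hNW, hs⟩ := hg.smooth
  have g1 : Good f N₁ g := ⟨⟨W, hW, s1.trans hNW, hs⟩, fun x hx => hg.reg x (s1 hx),
    fun x hx => hg.hom x (f1 hx)⟩
  have g2 : Good f N₂ g := ⟨⟨W, hW, s2.trans hNW, hs⟩, fun x hx => hg.reg x (s2 hx),
    fun x hx => hg.hom x (f2 hx)⟩
  rw [deg_eq_cnt A hg, deg_eq_cnt A1 g1, deg_eq_cnt A2 g2]
  have fin1 : (N₁ ∩ g ⁻¹' {0}).Finite := finite_zeros h₁ hW (s1.trans hNW) hs g1.reg
  have fin2 : (N₂ ∩ g ⁻¹' {0}).Finite := finite_zeros h₂ hW (s2.trans hNW) hs g2.reg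
  unfold cnt
  rw [union_inter_distrib_right]
  exact finsum_mem_union (hd.mono inter_subset_left inter_subset_left) fin1 fin2

theorem deg_zero {f : E → E} {N : Set E} (A : Adm f N) (h0 : ∀ x ∈ N, f x ≠ 0) :
    deg f N = 0 := by
  rw [deg_excision A isCompact_empty (empty_subset N) fun x hx _ => h0 x hx]
  obtain ⟨V, hV, hNV, hf⟩ := A.cont
  have A' : Adm f ∅ := ⟨isCompact_empty, ⟨V, hV, empty_subset V, hf⟩, by simp⟩
  obtain ⟨g, hg, -, -⟩ := exists_good A' one_pos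
  rw [deg_eq_cnt A' hg]
  unfold cnt
  rw [empty_inter, finsum_mem_empty]

end Pool.Agent.ANO3.Deg
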