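import Pool.Agent.ANO3.Deg.Basic

/-!
# ANO3, module Deg: composition with a `C¹` local diffeomorphism (package DEG-COVER)

`G` is `C¹` on a neighbourhood of the compact set `M`, `sign (det DG) = σ` on `M`, and `G` maps the
frontier of `M` outside of the interior of `N`.

`card_const`: for `y ∈ interior N` all solutions `x ∈ M` of `G x = y` are interior points of `M`,
and
nondegenerate with sign `σ`: `deg_of_reg` and `ANO.Idx.ncard_eq_of_sign` for `G - y` give
`ncard (M ∩ G ⁻¹' {y}) = natAbs (deg (G - y) M)`, and `deg (G - y) M` is constant for `y ∈ interior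
N`:
homotopy `G - ((1 - t) y + t y')` (`interior N` is convex because `N` is: `deg_homotopy`).

`deg_comp`: let `h` be good for `f` on `N`, `C¹` everywhere, and close to `f` (`exists_good`). All
zeros
of `h` in `N` are in the interior of `N` (`hom`, `t = 0`). `h ∘ G` is `C¹` near `M`; its zeros in
`M`
are the `x ∈ M` with `h (G x) = 0`, but only those with `G x ∈ N` must count: therefore the
hypothesis `hMN : G` maps `M` into `N`. The derivative is `Dh (G x) ∘ DG x`, the sign is the product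
(`SmoothDegree.det_comp`), so
`cnt (h ∘ G) M = ∑_{y ∈ N, h y = 0} ∑_{x ∈ M, G x = y} σ * jacobianSign h y = σ * m * cnt h N`.
`h ∘ G` is good for `f ∘ G` on `M`: on the frontier of `M` the point `G x ∈ N` is not in the
interior of
`N`, so it is in the frontier of `N` (`N` closed).
-/

set_option autoImplicit false

open Set Filter Topology
open Pool.Agent.SmoothDegree Pool.Agent.ANO.Idx

namespace Pool.Agent.ANO3.Deg

variable {E : Type*} [NormedAddCommGroup E] [NormedSpace ℝ E] [FiniteDimensional ℝ E] [Nontrivial E]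

omit [FiniteDimensional ℝ E] [Nontrivial E] in
private theorem det_ne_Cover {G : E → E} {σ : ℤ} (hσ : σ.natAbs = 1) {x : E}
    (hs : jacobianSign G x = σ) : (fderiv ℝ G x).det ≠ 0 := by
  intro h
  unfold jacobianSign at hs
  rw [h, sign_zero] at hs
  rw [← hs] at hσ
  simp at hσ

/-- the number of solutions is constant -/
theorem card_const {G : E → E} {M N V : Set E} (hM : IsCompact M) (hV : IsOpen V) (hMV : M ⊆ V)
    (hG : ContDiffOn ℝ 1 G V) {σ : ℤ} (hσ : σ.natAbs = 1) (hs : ∀ x ∈ M, jacobianSign G x = σ)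
    (hN : IsCompact N) (hc : Convex ℝ N) (hfr : ∀ x ∈ frontier M, G x ∉ interior N) :
    ∃ m : ℕ, ∀ y ∈ interior N, (M ∩ G ⁻¹' {y}).Finite ∧ (M ∩ G ⁻¹' {y}).ncard = m := by
  have hreg : ∀ y : E, Reg (fun x => G x - y) M := fun y x hx _ => by
    rw [fderiv_sub_const]
    exact det_ne_Cover hσ (hs x hx)
  have hcd : ∀ y : E, ContDiffOn ℝ 1 (fun x => G x - y) V := fun y => hG.sub contDiffOn_const
  have hset : ∀ y : E, M ∩ (fun x => G x - y) ⁻¹' {0} = M ∩ G ⁻¹' {y} := fun y => by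
    ext x
    simp only [mem_inter_iff, mem_preimage, mem_singleton_iff, sub_eq_zero]
  have hsg : ∀ y : E, ∀ x ∈ M, G x - y = 0 → jacobianSign (fun x => G x - y) x = σ :=
    fun y x hx _ => by
      rw [← hs x hx]
      unfold jacobianSign
      rw [fderiv_sub_const]
  have key : ∀ y ∈ interior N, (M ∩ G ⁻¹' {y}).Finite ∧
      (M ∩ G ⁻¹' {y}).ncard = (deg (fun x => G x - y) M).natAbs := by
    intro y hy
    have h1 := finite_zeros hM hV hMV (hcd y) (hreg y)
    have h2 := ncard_eq_of_sign hM hV hMV (hcd y) (hreg y) hσ (hsg y)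
    have h3 : deg (fun x => G x - y) M = cnt (fun x => G x - y) M := by
      refine deg_of_reg hM hV hMV (hcd y) (hreg y) ?_
      intro x hx h0
      exact hfr x hx (by rwa [sub_eq_zero.mp h0])
    rw [hset y] at h1 h2
    exact ⟨h1, by rw [h2, h3]⟩
  rcases (interior N).eq_empty_or_nonempty with he | ⟨y0, hy0⟩
  · refine ⟨0, fun y hy => ?_⟩
    rw [he] at hy
    exact absurd hy (notMem_empty y)
  · refine ⟨(deg (fun x => G x - y0) M).natAbs, fun y hy => ⟨(key y hy).1, ?_⟩⟩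
    rw [(key y hy).2]
    have hhom := deg_homotopy (F := fun t x => G x - ((1 - t) • y + t • y0)) hM hV hMV ?_ ?_
    · simp only [sub_zero, one_smul, zero_smul, add_zero, sub_self, zero_add] at hhom
      rw [hhom]
    · have h1 : ContinuousOn (fun p : ℝ × E => G p.2) (Icc 0 1 ×ˢ V) :=
        hG.continuousOn.comp continuousOn_snd (fun p hp => hp.2)
      refine h1.sub ?_
      fun_prop
    · intro t ht x hx h0
      have h1 : (1 - t) • y + t • y0 ∈ interior N :=
        hc.interior hy hy0 (sub_nonneg.mpr ht.2) ht.1 (by ring)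
      exact hfr x hx (by rwa [sub_eq_zero.mp h0])

/-- the degree of the composition -/
theorem deg_comp {G : E → E} {M N V : Set E} (hM : IsCompact M) (hV : IsOpen V) (hMV : M ⊆ V)
    (hG : ContDiffOn ℝ 1 G V) {σ : ℤ} (hσ : σ.natAbs = 1) (hs : ∀ x ∈ M, jacobianSign G x = σ)
    (hN : IsCompact N) (hc : Convex ℝ N) (hfr : ∀ x ∈ frontier M, G x ∉ interior N)
    (hMN : ∀ x ∈ M, G x ∈ N) {m : ℕ}
    (hm : ∀ y ∈ interior N, (M ∩ G ⁻¹' {y}).Finite ∧ (M ∩ G ⁻¹' {y}).ncard = m)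
    {f : E → E} (A : Adm f N) : Adm (f ∘ G) M ∧ deg (f ∘ G) M = σ * m * deg f N := by
  have hfrN : ∀ x ∈ frontier M, G x ∈ frontier N := fun x hx => by
    rw [hN.isClosed.frontier_eq]
    exact ⟨hMN x (hM.isClosed.frontier_subset hx), hfr x hx⟩
  obtain ⟨Vf, hVf, hNVf, hfc⟩ := A.cont
  have hAdm : Adm (f ∘ G) M := by
    refine ⟨hM, ⟨V ∩ G ⁻¹' Vf, hG.continuousOn.isOpen_inter_preimage hV hVf,
      fun x hx => ⟨hMV hx, hNVf (hMN x hx)⟩, ?_⟩, fun x hx => A.ne _ (hfrN x hx)⟩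
    exact hfc.comp (hG.continuousOn.mono inter_subset_left) (fun x hx => hx.2)
  refine ⟨hAdm, ?_⟩
  obtain ⟨g, hg, hgc, -⟩ := exists_good A (ε := 1) one_pos
  have hGd : ∀ x ∈ M, DifferentiableAt ℝ G x := fun x hx =>
    (hG.contDiffAt (hV.mem_nhds (hMV hx))).differentiableAt (by norm_num)
  have hgd : Differentiable ℝ g := hgc.differentiable (by norm_num)
  have hfd : ∀ x ∈ M, fderiv ℝ (g ∘ G) x = (fderiv ℝ g (G x)).comp (fderiv ℝ G x) := fun x hx =>
    fderiv_comp x (hgd (G x)) (hGd x hx)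
  have hdet : ∀ x ∈ M, (fderiv ℝ (g ∘ G) x).det = (fderiv ℝ g (G x)).det * (fderiv ℝ G x).det :=
    fun x hx => by
      rw [hfd x hx]
      exact SmoothDegree.det_comp _ _
  have hjs : ∀ x ∈ M, jacobianSign (g ∘ G) x = σ * jacobianSign g (G x) := fun x hx => by
    rw [← hs x hx]
    unfold jacobianSign
    rw [hdet x hx, sign_mul, SignType.coe_mul, mul_comm]
  have hgood : Good (f ∘ G) M (g ∘ G) := by
    refine ⟨⟨V, hV, hMV, hgc.comp_contDiffOn hG⟩, ?_, ?_⟩
    · intro x hx h0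
      rw [hdet x hx]
      exact mul_ne_zero (hg.reg _ (hMN x hx) h0) (det_ne_Cover hσ (hs x hx))
    · intro x hx t ht
      exact hg.hom _ (hfrN x hx) t ht
  rw [deg_eq_cnt hAdm hgood, deg_eq_cnt A hg]
  -- the zeros of `g` in `N`
  have hint : ∀ y ∈ N ∩ g ⁻¹' {0}, y ∈ interior N := by
    rintro y ⟨hy, h0⟩
    by_contra hni
    have h1 := hg.hom y (by rw [hN.isClosed.frontier_eq]; exact ⟨hy, hni⟩) 0
      ⟨le_refl _, zero_le_one⟩
    rw [zero_smul, add_zero] at h1
    exact h1 h0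
  obtain ⟨Vg, hVg, hNVg, hgs⟩ := hg.smooth
  have hfin : (N ∩ g ⁻¹' {0}).Finite := finite_zeros hN hVg hNVg hgs hg.reg
  have hset : M ∩ (g ∘ G) ⁻¹' {0} = ⋃ y ∈ N ∩ g ⁻¹' {0}, M ∩ G ⁻¹' {y} := by
    ext x
    simp only [mem_inter_iff, mem_preimage, mem_singleton_iff, mem_iUnion, Function.comp_apply]
    constructor
    · rintro ⟨h1, h2⟩
      exact ⟨G x, ⟨hMN x h1, h2⟩, h1, rfl⟩
    · rintro ⟨y, ⟨-, h2⟩, h3, h4⟩
      exact ⟨h3, by rw [h4]; exact h2⟩
  have hdisj : (N ∩ g ⁻¹' {0}).PairwiseDisjoint fun y => M ∩ G ⁻¹' {y} := by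
    intro y _ y' _ hne
    rw [Function.onFun, Set.disjoint_left]
    rintro x ⟨-, h1⟩ ⟨-, h2⟩
    exact hne (by rw [← mem_singleton_iff.mp h1, ← mem_singleton_iff.mp h2])
  unfold cnt
  rw [hset, finsum_mem_biUnion hdisj hfin (fun y hy => (hm y (hint y hy)).1)]
  have hin : ∀ y ∈ N ∩ g ⁻¹' {0}, ∑ᶠ x ∈ M ∩ G ⁻¹' {y}, jacobianSign (g ∘ G) x =
      σ * m * jacobianSign g y := by
    intro y hy
    obtain ⟨h1, h2⟩ := hm y (hint y hy)
    have h3 : ∑ᶠ x ∈ M ∩ G ⁻¹' {y}, jacobianSign (g ∘ G) x =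
        ∑ᶠ x ∈ M ∩ G ⁻¹' {y}, σ * jacobianSign g y := by
      refine finsum_mem_congr rfl fun x hx => ?_
      rw [hjs x hx.1, mem_singleton_iff.mp hx.2]
    rw [h3, finsum_mem_eq_finite_toFinset_sum _ h1, Finset.sum_const, nsmul_eq_mul,
      ← Set.ncard_eq_toFinset_card _ h1, h2]
    ring
  rw [finsum_mem_congr rfl hin, ← mul_finsum_mem' _ _ hfin]

end Pool.Agent.ANO3.Deg
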