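import Pool.Agent.ANO.Idx.Count

/-!
# ANO3, module Deg: the degree of continuous maps (definitions)

`E` is a finite dimensional real vector space, `N ⊆ E` is compact, `f : E → E` is continuous on a
neighbourhood of `N` and has no zero on the frontier of `N`.  `deg f N` is the signed number of
zeros
(`ANO.Idx.cnt`) in `N` of a `C¹` map with nondegenerate zeros which is homotopic to `f` along
straight lines on the frontier of `N`.  Everything rests on `ANO.Idx.cnt_eq`.
-/

set_option autoImplicit false

open Set Filter Topology
open Pool.Agent.SmoothDegree Pool.Agent.ANO.Idx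

namespace Pool.Agent.ANO3.Deg

variable {E : Type*} [NormedAddCommGroup E] [NormedSpace ℝ E]

/-- `f` is admissible on `N`. -/
structure Adm (f : E → E) (N : Set E) : Prop where
  compact : IsCompact N
  cont : ∃ V, IsOpen V ∧ N ⊆ V ∧ ContinuousOn f V
  ne : ∀ x ∈ frontier N, f x ≠ 0

/-- `h` is a good approximation of `f` on `N`. -/
structure Good (f : E → E) (N : Set E) (h : E → E) : Prop where
  smooth : ∃ V, IsOpen V ∧ N ⊆ V ∧ ContDiffOn ℝ 1 h V
  reg : Reg h N
  hom : ∀ x ∈ frontier N, ∀ t ∈ Icc (0 : ℝ) 1, h x + t • (f x - h x) ≠ 0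

open Classical in
/-- The degree of `f` on `N` (at the value `0`). -/
noncomputable def deg (f : E → E) (N : Set E) : ℤ :=
  if h : ∃ g, Good f N g then cnt h.choose N else 0

end Pool.Agent.ANO3.Deg
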